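import Pool.Agent.helper80.SV.Spec

set_option autoImplicit false

namespace Pool.Agent.SV

open MvPolynomial Module

theorem MHS_sum {k : ℕ} (n : Fin k → ℕ) (m : Var n →₀ ℕ) (i : Fin k) :
    ∑ v ∈ Finset.univ.filter (fun v : Var n => v.1 = i), m v = ∑ j : Fin (n i + 1), m ⟨i, j⟩ := by
  rw [Finset.sum_filter, Fintype.sum_sigma]
  rw [Finset.sum_eq_single i]
  · simp
  · intro b _ hb
    simp [hb]
  · intro h
    exact absurd (Finset.mem_univ i) h

theorem MHS : MHS_stmt := by
  intro k n d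
  ext f
  rw [mem_Sec]
  show (∀ m, coeff m f ≠ 0 → ∀ i, ∑ j : Fin (n i + 1), m ⟨i, j⟩ = d i) ↔ _
  refine forall_congr' fun m => imp_congr_right fun _ => ?_
  constructor
  · intro h
    refine ⟨fun i hi => absurd (Finset.mem_univ i) hi, fun i => ?_⟩
    rw [← h i]
    exact MHS_sum n m i
  · intro h i
    rw [← h.2 i]
    exact (MHS_sum n m i).symm

end Pool.Agent.SV
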